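import Mathlib

set_option autoImplicit false

namespace Pool.Agent.Results.MP_ba75bf_co.AllDim

section
variable {T : Type} [CommRing T] [Algebra ℂ T] (φ : T →ₐ[ℂ] ℂ)

/-- elements with real residue. -/
def sub : Subring T := Complex.ofRealHom.range.comap (φ : T →+* ℂ)

theorem mem_sub (t : T) : t ∈ sub φ ↔ (φ t).im = 0 := by
  simp only [sub, Subring.mem_comap, RingHom.mem_range, Complex.ofRealHom_eq_coe, RingHom.coe_coe]
  exact ⟨fun ⟨r, h⟩ => by rw [← h]; simp, fun h => ⟨(φ t).re, by apply Complex.ext <;> simp [h]⟩⟩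

variable (hφ : ∀ t, φ t ≠ 0 → IsUnit t)
include hφ

theorem unit (r : sub φ) (h : φ r ≠ 0) : IsUnit r := by
  obtain ⟨s, hs⟩ := (hφ r h).exists_right_inv
  have h1 : φ r * φ s = 1 := by rw [← map_mul, hs, map_one]
  have h2 : s ∈ sub φ := by
    rw [mem_sub, eq_inv_of_mul_eq_one_right h1, Complex.inv_im, (mem_sub φ r).mp r.2]; simp
  exact IsUnit.of_mul_eq_one ⟨s, h2⟩ (Subtype.ext hs)

theorem dim : ringKrullDim (sub φ) = ringKrullDim T := by
  have z : ∀ t, φ t = 0 → t ∈ sub φ := fun t h => by rw [mem_sub, h]; rfl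
  symm
  refine Order.krullDim_eq_of_orderIso (RelIso.ofSurjective
    (OrderEmbedding.ofMapLEIff (PrimeSpectrum.comap (sub φ).subtype) fun P Q => ?_) fun q => ?_)
  · refine ⟨fun h t ht => ?_, fun h => Ideal.comap_mono h⟩
    have : φ t = 0 := by
      by_contra e
      exact P.2.ne_top (P.1.eq_top_of_isUnit_mem ht (hφ t e))
    exact h (show (⟨t, z t this⟩ : sub φ) ∈ P.1.comap (sub φ).subtype from ht)
  · have q0 : ∀ r ∈ q.1, φ (r : T) = 0 := fun r hr => by
      by_contra e
      exact q.2.ne_top (q.1.eq_top_of_isUnit_mem hr (unit φ hφ r e))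
    let Q : Ideal T :=
      { carrier := {t | ∃ h : t ∈ sub φ, ⟨t, h⟩ ∈ q.1}
        add_mem' := fun ⟨h1, a⟩ ⟨h2, b⟩ => ⟨add_mem h1 h2, q.1.add_mem a b⟩
        zero_mem' := ⟨zero_mem _, q.1.zero_mem⟩
        smul_mem' := by
          rintro t a ⟨h, ha⟩
          have e := q0 _ ha
          simp only at e
          refine ⟨z _ (by simp [e]), q.2.mem_of_pow_mem 2 ?_⟩
          convert q.1.mul_mem_left ⟨t * t * a, z _ (by simp [e])⟩ ha using 1
          ext; simp; ring }
    have hQ : Q.IsPrime := by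
      refine ⟨fun h => ?_, fun {s t} hst => ?_⟩
      · obtain ⟨_, h1⟩ : (1 : T) ∈ Q := h ▸ Submodule.mem_top
        simpa using q0 _ h1
      · by_cases e1 : φ s = 0
        · by_cases e2 : φ t = 0
          · obtain ⟨_, h⟩ := hst
            exact (q.2.mem_or_mem (x := ⟨s, z s e1⟩) (y := ⟨t, z t e2⟩) h).imp
              (fun a => ⟨_, a⟩) fun a => ⟨_, a⟩
          · exact Or.inl ((Ideal.mul_unit_mem_iff_mem Q (hφ t e2)).mp hst)
        · exact Or.inr ((Ideal.unit_mul_mem_iff_mem Q (hφ s e1)).mp hst)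
    refine ⟨⟨Q, hQ⟩, PrimeSpectrum.ext ?_⟩
    ext r
    exact ⟨fun ⟨_, h⟩ => h, fun h => ⟨r.2, h⟩⟩

theorem game [IsNoetherianRing T] : ∃ σ : sub φ → sub φ, ∀ x : ℕ → sub φ,
    (∀ k, x (2 * k + 1) = σ (x (2 * k))) →
    (∀ k, Ideal.span (x '' Set.Iio (2 * k)) ≠ ⊤ → x (2 * k) ∉ Ideal.span (x '' Set.Iio (2 * k))) →
    ∃ k, Ideal.span (x '' Set.Iio (2 * k + 1)) = ⊤ ∧
      ∀ j ≤ 2 * k, x j ∉ Ideal.span (x '' Set.Iio j) := by
  classical
  have z : ∀ t, φ t = 0 → t ∈ sub φ := fun t h => by rw [mem_sub, h]; rfl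
  let i : T := algebraMap ℂ T Complex.I
  refine ⟨fun a => if h : φ a = 0 then ⟨i * a, z _ (by simp [h])⟩ else a, fun x hB hA => ?_⟩
  have hB' : ∀ k, φ (x (2 * k)) = 0 → (x (2 * k + 1) : T) = i * x (2 * k) := fun k h => by
    rw [hB]; simp only [dif_pos h]
  let J : ℕ → Ideal T := fun k => Ideal.span ((fun j => (x (2 * j) : T)) '' Set.Iio k)
  have key : ∀ k, (∀ j < k, φ (x (2 * j)) = 0) → ∀ r : sub φ,
      r ∈ Ideal.span (x '' Set.Iio (2 * k)) ↔ (r : T) ∈ J k := by
    intro k hk r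
    constructor
    · intro h
      refine (Ideal.span_le (I := (J k).comap (sub φ).subtype)).mpr ?_ h
      rintro _ ⟨m, hm, rfl⟩
      have hm : m < 2 * k := hm
      have a : (x (2 * (m / 2)) : T) ∈ J k :=
        Ideal.subset_span ⟨m / 2, show m / 2 < k by omega, rfl⟩
      show (x m : T) ∈ J k
      rcases (by omega : m = 2 * (m / 2) ∨ m = 2 * (m / 2) + 1) with e | e
      · rwa [e]
      · rw [e, hB' _ (hk _ (by omega))]
        exact Ideal.mul_mem_left _ _ a
    · intro h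
      have : ∀ y ∈ J k, ∀ t : T, ∃ s ∈ Ideal.span (x '' Set.Iio (2 * k)), (s : T) = t * y := by
        intro y hy
        induction hy using Submodule.span_induction with
        | mem y hy =>
          obtain ⟨j, hj, rfl⟩ := hy
          have hj : j < k := hj
          intro t
          refine ⟨⟨t - algebraMap ℂ T (φ t).im * i, by simp [mem_sub, i]⟩ * x (2 * j) +
            ⟨algebraMap ℂ T (φ t).im, by simp [mem_sub]⟩ * x (2 * j + 1), add_mem
            (Ideal.mul_mem_left _ _ (Ideal.subset_span ⟨_, show 2 * j < 2 * k by omega, rfl⟩))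
            (Ideal.mul_mem_left _ _ (Ideal.subset_span ⟨_, show 2 * j + 1 < 2 * k by omega, rfl⟩)),
            ?_⟩
          simp [hB' j (hk j hj)]; ring
        | zero => exact fun t => ⟨0, zero_mem _, by simp⟩
        | add y y' _ _ h1 h2 =>
          intro t
          obtain ⟨s, a, b⟩ := h1 t
          obtain ⟨s', a', b'⟩ := h2 t
          exact ⟨s + s', add_mem a a', by simp [b, b', mul_add]⟩
        | smul c y _ h1 => exact fun t => by simpa [mul_assoc] using h1 (t * c)
      obtain ⟨s, a, b⟩ := this r h 1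
      rwa [show s = r from Subtype.ext (by simpa using b)] at a
  have legal : ∀ k, (∀ j < k, φ (x (2 * j)) = 0) → (x (2 * k) : T) ∉ J k := by
    intro k hk
    rw [← key k hk]
    refine hA k fun e => ?_
    have h1 := (key k hk 1).mp (e ▸ Submodule.mem_top)
    have h2 : J k ≤ RingHom.ker (φ : T →+* ℂ) := by
      rw [Ideal.span_le]
      rintro _ ⟨j, hj, rfl⟩
      exact hk j hj
    simpa using h2 h1
  have ex : ∃ k, φ (x (2 * k)) ≠ 0 := by
    by_contra h
    push Not at h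
    obtain ⟨n, hn⟩ := monotone_stabilizes_iff_noetherian.mpr (inferInstanceAs (IsNoetherian T T))
      ⟨J, fun a b hab => Ideal.span_mono (Set.image_mono (Set.Iio_subset_Iio hab))⟩
    refine legal n (fun j _ => h j) ?_
    rw [show J n = J (n + 1) from hn (n + 1) (by omega)]
    exact Ideal.subset_span ⟨n, Nat.lt_succ_self n, rfl⟩
  have hk : ∀ j < Nat.find ex, φ (x (2 * j)) = 0 := fun j hj => by
    simpa using Nat.find_min ex hj
  refine ⟨Nat.find ex, Ideal.eq_top_of_isUnit_mem _ (Ideal.subset_span ⟨_, Nat.lt_succ_self _, rfl⟩)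
    (unit φ hφ _ (Nat.find_spec ex)), fun m hm => ?_⟩
  obtain ⟨j, e | e⟩ := Nat.even_or_odd' m
  · subst e
    have h1 : ∀ l < j, φ (x (2 * l)) = 0 := fun l hl => hk l (by omega)
    rw [key j h1]
    exact legal j h1
  · subst e
    have h1 : ∀ l < j, φ (x (2 * l)) = 0 := fun l hl => hk l (by omega)
    rw [show Set.Iio (2 * j + 1) = insert (2 * j) (Set.Iio (2 * j)) by ext; simp,
      Set.image_insert_eq, Ideal.mem_span_insert]
    rintro ⟨r, y, hy, e⟩
    have e' := congrArg Subtype.val e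
    rw [hB' j (hk j (by omega))] at e'
    refine legal j h1 ((Ideal.unit_mul_mem_iff_mem _ (hφ (i - r) fun h => ?_)).mp ?_)
    · have := congrArg Complex.im h
      simp [i, (mem_sub φ r).mp r.2] at this
    · rw [sub_mul, e']
      simpa using (key j h1 y).mp hy

end

theorem result (n : ℕ) : ∃ (R : Type) (_ : CommRing R), ringKrullDim R = n ∧
    ∃ σ : R → R, ∀ x : ℕ → R, (∀ k, x (2 * k + 1) = σ (x (2 * k))) →
      (∀ k, Ideal.span (x '' Set.Iio (2 * k)) ≠ ⊤ →
        x (2 * k) ∉ Ideal.span (x '' Set.Iio (2 * k))) →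
      ∃ k, Ideal.span (x '' Set.Iio (2 * k + 1)) = ⊤ ∧
        ∀ j ≤ 2 * k, x j ∉ Ideal.span (x '' Set.Iio j) := by
  have hd : ringKrullDim (MvPolynomial (Fin n) ℂ) = n := by
    rw [MvPolynomial.ringKrullDim_of_isNoetherianRing, ringKrullDim_eq_zero_of_field]; simp
  have : FiniteRingKrullDim (MvPolynomial (Fin n) ℂ) := by
    rw [finiteRingKrullDim_iff_ne_bot_and_top, hd]
    exact ⟨by simp, fun h => ENat.natCast_ne_top n (WithBot.coe_injective h)⟩
  obtain ⟨P, hP, hh⟩ := Ideal.exists_isMaximal_height (R := MvPolynomial (Fin n) ℂ)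
  obtain ⟨p, hp⟩ := MvPolynomial.isMaximal_iff_eq_vanishingIdeal_singleton.mp hP
  have hm : ∀ a, a ∈ P ↔ MvPolynomial.aeval p a = 0 := fun a => by
    rw [hp, MvPolynomial.mem_vanishingIdeal_singleton_iff]
  let φ : Localization.AtPrime P →ₐ[ℂ] ℂ := IsLocalization.liftAlgHom (M := P.primeCompl)
    (f := MvPolynomial.aeval p) fun y => isUnit_iff_ne_zero.mpr fun e => y.2 ((hm _).mpr e)
  have hφ : ∀ t, φ t ≠ 0 → IsUnit t := by
    intro t ht
    obtain ⟨⟨a, s⟩, rfl⟩ := IsLocalization.mk'_surjective P.primeCompl t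
    rw [IsLocalization.AtPrime.isUnit_mk'_iff _ P]
    intro ha
    apply ht
    simp only [φ, IsLocalization.liftAlgHom_apply]
    rw [IsLocalization.lift_mk'_spec]
    simpa using (hm a).mp ha
  refine ⟨sub φ, inferInstance, ?_, game φ hφ⟩
  rw [dim φ hφ, IsLocalization.AtPrime.ringKrullDim_eq_height P, hh, hd]

end Pool.Agent.Results.MP_ba75bf_co.AllDim
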